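import Mathlib
import Pool.Agent.Helper13.TU.Final

/-!
# Effective computation of the integers that are sums of two units
-/

set_option autoImplicit false

open NumberField Polynomial Module IntermediateField

namespace Pool.Agent.Results.MP_86b3ee_nt.EffectiveTwoUnits

/-- `N_K`: the positive integers that are sums of two units of the ring of integers of `K` -/
def NSet (K : Type*) [Field K] : Set ℕ :=
  {n | 1 ≤ n ∧ ∃ ε δ : (𝓞 K)ˣ, ((ε : 𝓞 K) : K) + ((δ : 𝓞 K) : K) = (n : K)}

/-- the monic integer polynomial `X ^ d + c_{d-1} X ^ (d-1) + … + c_0` coded by the list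
`c = [c_0, …, c_{d-1}]` -/
noncomputable def polyOf (c : List ℤ) : ℤ[X] :=
  X ^ c.length + ∑ i ∈ Finset.range c.length, C (c.getD i 0) * X ^ i

/-- the algebra `ℚ[x]/(f)` with `f = polyOf c` -/
abbrev fieldOf (c : List ℤ) : Type := AdjoinRoot ((polyOf c).map (Int.castRingHom ℚ))

/-- `δ` is the image of `ε` under an automorphism of order two of the field `ℚ(ε)`, and `ℚ(ε)`
has a real embedding -/
def Special {K : Type*} [Field K] [CharZero K] (ε δ : K) : Prop :=
  ∃ τ : ℚ⟮ε⟯ ≃ₐ[ℚ] ℚ⟮ε⟯, τ ≠ 1 ∧ τ * τ = 1 ∧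
    ((τ (AdjoinSimple.gen ℚ ε) : ℚ⟮ε⟯) : K) = δ ∧ Nonempty (ℚ⟮ε⟯ →+* ℝ)

/-- `K` has no subfield `F` of even degree at least six that has a real embedding and an
automorphism of order two, and that has no subfield of degree two -/
def NoBadSubfield (K : Type*) [Field K] [CharZero K] : Prop :=
  ∀ F : IntermediateField ℚ K, Even (finrank ℚ F) → 6 ≤ finrank ℚ F → Nonempty (F →+* ℝ) →
    (∀ L : IntermediateField ℚ F, finrank ℚ L ≠ 2) → ∀ τ : F ≃ₐ[ℚ] F, τ * τ = 1 → τ = 1

/-- **An algorithm for `N_K`.** -/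
theorem result :
    ∃ F : List ℤ → List ℕ, Primrec F ∧
      ∀ (c : List ℤ) [Fact (Irreducible ((polyOf c).map (Int.castRingHom ℚ)))],
        -- everything in the list is a sum of two units
        (∀ n ∈ F c, n ∈ NSet (fieldOf c)) ∧
        -- the representations of all other integers are special
        (∀ (ε δ : (𝓞 (fieldOf c))ˣ) (n : ℕ), 1 ≤ n →
          ((ε : 𝓞 (fieldOf c)) : fieldOf c) + ((δ : 𝓞 (fieldOf c)) : fieldOf c) =
            (n : fieldOf c) → n ∉ F c →
          Special ((ε : 𝓞 (fieldOf c)) : fieldOf c) ((δ : 𝓞 (fieldOf c)) : fieldOf c)) ∧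
        -- the list is `N_K` if `N_K` is finite and `K` has no bad subfield
        ((NSet (fieldOf c)).Finite → NoBadSubfield (fieldOf c) →
          ∀ n, n ∈ F c ↔ n ∈ NSet (fieldOf c)) ∧
        -- in particular for odd degree, degree at most five, abelian fields, simple extensions
        ((NSet (fieldOf c)).Finite →
          (Odd (finrank ℚ (fieldOf c)) ∨ finrank ℚ (fieldOf c) ≤ 5 ∨
            IsAbelianGalois ℚ (fieldOf c) ∨
            ∀ M : IntermediateField ℚ (fieldOf c), M = ⊥ ∨ M = ⊤) →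
          ∀ n, n ∈ F c ↔ n ∈ NSet (fieldOf c)) := by
  obtain ⟨F, hF, h⟩ := Helper13.TU.main_thm
  refine ⟨F, hF, fun c hc => ?_⟩
  obtain ⟨h1, h2, h3⟩ := @h c hc
  have h3' : (NSet (fieldOf c)).Finite → NoBadSubfield (fieldOf c) →
      ∀ n, n ∈ F c ↔ n ∈ NSet (fieldOf c) := fun a b => h3 a b
  refine ⟨h1, h2, h3', fun hfin hcase => ?_⟩
  rcases hcase with ho | h5 | hab | hs
  · exact h3' hfin (Helper13.TU.noBad_of_odd ho)
  · exact h3' hfin (Helper13.TU.noBad_of_le_five h5)
  · exact h3' hfin (Helper13.TU.noBad_of_abelian)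
  · exact h3' hfin (Helper13.TU.noBad_of_simple hs)

end Pool.Agent.Results.MP_86b3ee_nt.EffectiveTwoUnits
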